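import Pool.Agent.Helper28.T3.StB

/-! # Project T3 (MP_1d384c_nt): module GOOD (the 72 classes modulo 6) -/

set_option autoImplicit false

namespace Pool.Agent.Helper47.T3

open Pool.Agent.Helper28.T3

private lemma card72 : Cl6.card = 72 := by
  unfold Cl6
  decide +kernel

private lemma par (A B C : ℤ) (h : (4 * A * C - B ^ 2) % 24 = 19) :
    A % 2 = 1 ∧ B % 2 = 1 ∧ C % 2 = 1 ∧ (A * C + 5 * B ^ 2) % 3 = 1 := by
  have hq : 4 * (A * C) - B ^ 2 = 24 * ((4 * A * C - B ^ 2) / 24) + 19 := by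
    have := Int.emod_add_mul_ediv (4 * A * C - B ^ 2) 24
    rw [h] at this
    linarith
  set q := (4 * A * C - B ^ 2) / 24 with hqd
  have hB : B % 2 = 1 := by
    rcases Int.emod_two_eq_zero_or_one B with h0 | h0
    · exfalso
      obtain ⟨s, hs⟩ : ∃ s : ℤ, B = 2 * s := ⟨B / 2, by omega⟩
      rw [hs] at hq
      have h1 : 4 * (A * C) - 4 * (s * s) = 24 * q + 19 := by linarith
      omega
    · exact h0
  have hAC : (A * C) % 2 = 1 := by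
    obtain ⟨s, hs⟩ : ∃ s : ℤ, B = 2 * s + 1 := ⟨B / 2, by omega⟩
    have h1 : A * C = 6 * q + 5 + s * (s + 1) := by
      rw [hs] at hq
      linarith
    have h2 : Even (s * (s + 1)) := Int.even_mul_succ_self s
    obtain ⟨u, hu⟩ := h2
    omega
  have hodd : Odd (A * C) := Int.odd_iff.mpr hAC
  rw [Int.odd_mul, Int.odd_iff, Int.odd_iff] at hodd
  refine ⟨hodd.1, hB, hodd.2, ?_⟩
  omega

private lemma key (a b c d x y z w : ℤ) (hx : ∃ k, a = 6 * k + x) (hy : ∃ k, b = 6 * k + y)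
    (hz : ∃ k, c = 6 * k + z) (hw : ∃ k, d = 6 * k + w) (hD : cD a b c d % 24 = 19) :
    (y ^ 2 + 5 * x * z) % 2 = 1 ∧ (y * z + 5 * x * w) % 2 = 1 ∧ (z ^ 2 + 5 * y * w) % 2 = 1 ∧
    ((y ^ 2 + 5 * x * z) * (z ^ 2 + 5 * y * w) + 5 * (y * z + 5 * x * w) ^ 2) % 3 = 1 := by
  obtain ⟨a1, rfl⟩ := hx
  obtain ⟨b1, rfl⟩ := hy
  obtain ⟨c1, rfl⟩ := hz
  obtain ⟨d1, rfl⟩ := hw
  unfold cD at hD
  obtain ⟨h1, h2, h3, h4⟩ := par _ _ _ hD
  obtain ⟨k1, hk1⟩ : ∃ k, y ^ 2 + 5 * x * z = cA (6 * a1 + x) (6 * b1 + y) (6 * c1 + z) + 6 * k :=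
    ⟨-6 * b1 ^ 2 - 2 * b1 * y + 6 * a1 * c1 + a1 * z + c1 * x + x * z, by unfold cA; ring⟩
  obtain ⟨k2, hk2⟩ : ∃ k, y * z + 5 * x * w =
      cB (6 * a1 + x) (6 * b1 + y) (6 * c1 + z) (6 * d1 + w) + 6 * k :=
    ⟨-6 * b1 * c1 - b1 * z - c1 * y + 6 * a1 * d1 + a1 * w + d1 * x + x * w, by
      unfold cB; ring⟩
  obtain ⟨k3, hk3⟩ : ∃ k, z ^ 2 + 5 * y * w = cA (6 * d1 + w) (6 * c1 + z) (6 * b1 + y) + 6 * k :=
    ⟨-6 * c1 ^ 2 - 2 * c1 * z + 6 * d1 * b1 + d1 * y + b1 * w + y * w, by unfold cA; ring⟩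
  set A := cA (6 * a1 + x) (6 * b1 + y) (6 * c1 + z)
  set B := cB (6 * a1 + x) (6 * b1 + y) (6 * c1 + z) (6 * d1 + w)
  set C := cA (6 * d1 + w) (6 * c1 + z) (6 * b1 + y)
  rw [hk1, hk2, hk3]
  refine ⟨by omega, by omega, by omega, ?_⟩
  have e : (A + 6 * k1) * (C + 6 * k3) + 5 * (B + 6 * k2) ^ 2 = (A * C + 5 * B ^ 2) +
      3 * (2 * A * k3 + 2 * C * k1 + 12 * k1 * k3 + 20 * B * k2 + 60 * k2 ^ 2) := by ring
  rw [e]
  omega

theorem hGOOD : StGOOD := by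
  refine ⟨card72, ?_⟩
  intro a b c d hD
  have hm : ∀ n : ℤ, ((n % 6).toNat : ℤ) = n % 6 := fun n =>
    Int.toNat_of_nonneg (Int.emod_nonneg n (by norm_num))
  have hlt : ∀ n : ℤ, (n % 6).toNat < 6 := fun n => by omega
  have hex : ∀ n : ℤ, ∃ k, n = 6 * k + n % 6 := fun n => ⟨n / 6, by omega⟩
  obtain ⟨h1, h2, h3, h4⟩ := key a b c d (a % 6) (b % 6) (c % 6) (d % 6) (hex a) (hex b) (hex c)
    (hex d) hD
  refine ⟨(⟨(a % 6).toNat, hlt a⟩, ⟨(b % 6).toNat, hlt b⟩, ⟨(c % 6).toNat, hlt c⟩,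
    ⟨(d % 6).toNat, hlt d⟩), ?_, ?_, ?_, ?_, ?_⟩
  · unfold Cl6
    rw [Finset.mem_filter]
    refine ⟨Finset.mem_univ _, ?_, ?_, ?_, ?_⟩
    · show ((b % 6).toNat ^ 2 + 5 * (a % 6).toNat * (c % 6).toNat) % 2 = 1
      rw [← hm a, ← hm b, ← hm c] at h1
      exact_mod_cast h1
    · show ((b % 6).toNat * (c % 6).toNat + 5 * (a % 6).toNat * (d % 6).toNat) % 2 = 1
      rw [← hm a, ← hm b, ← hm c, ← hm d] at h2
      exact_mod_cast h2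
    · show ((c % 6).toNat ^ 2 + 5 * (b % 6).toNat * (d % 6).toNat) % 2 = 1
      rw [← hm b, ← hm c, ← hm d] at h3
      exact_mod_cast h3
    · show (((b % 6).toNat ^ 2 + 5 * (a % 6).toNat * (c % 6).toNat) *
        ((c % 6).toNat ^ 2 + 5 * (b % 6).toNat * (d % 6).toNat) +
        5 * ((b % 6).toNat * (c % 6).toNat + 5 * (a % 6).toNat * (d % 6).toNat) ^ 2) % 3 = 1
      rw [← hm a, ← hm b, ← hm c, ← hm d] at h4
      exact_mod_cast h4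
  · exact (hm a).symm
  · exact (hm b).symm
  · exact (hm c).symm
  · exact (hm d).symm

end Pool.Agent.Helper47.T3
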