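import Pool.Agent.Helper28.T3.StA

/-! # Project T3 (MP_1d384c_nt): module QFE (the quadratic field of discriminant `-D`) -/

set_option autoImplicit false

open scoped NumberField

namespace Pool.Agent.Helper47.T3

open Pool.Agent.Helper28.T3

private lemma int_of_integral (x : ℚ) (h : IsIntegral ℤ x) : ∃ y : ℤ, (y : ℚ) = x := by
  obtain ⟨y, hy⟩ := IsIntegrallyClosed.isIntegral_iff.mp h
  exact ⟨y, by simpa using hy⟩

private lemma arith (D : ℕ) (hs : Squarefree D) (h4 : D % 4 = 3) (e : ℤ) (he : 4 * e = (D : ℤ) + 1)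
    (u v : ℚ) (T N : ℤ) (hT : (T : ℚ) = 2 * u + v) (hN : (N : ℚ) = u * u + u * v + e * v * v) :
    ∃ s t : ℤ, (s : ℚ) = u ∧ (t : ℚ) = v := by
  have hD0 : (D : ℚ) ≠ 0 := by
    have : D ≠ 0 := by omega
    exact_mod_cast this
  have heq : 4 * (e : ℚ) = (D : ℚ) + 1 := by exact_mod_cast he
  have h1 : (4 * (N : ℚ) - (T : ℚ) ^ 2) = D * v ^ 2 := by
    rw [hT, hN]
    linear_combination v ^ 2 * heq
  have h2 : ((D : ℚ) * v) ^ 2 = ((((D : ℤ) * (4 * N - T ^ 2)) : ℤ) : ℚ) := by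
    push_cast
    rw [h1]
    ring
  have h3 : IsIntegral ℤ ((D : ℚ) * v) := by
    apply IsIntegral.of_pow (n := 2) (by norm_num)
    rw [h2]
    exact isIntegral_algebraMap (R := ℤ) (A := ℚ) (x := (D : ℤ) * (4 * N - T ^ 2))
  obtain ⟨w, hw⟩ := int_of_integral _ h3
  have h4' : w ^ 2 = (D : ℤ) * (4 * N - T ^ 2) := by
    have : ((w ^ 2 : ℤ) : ℚ) = (((D : ℤ) * (4 * N - T ^ 2) : ℤ) : ℚ) := by
      rw [← h2, ← hw]
      push_cast
      ring
    exact_mod_cast this
  have h5 : (D : ℤ) ∣ w ^ 2 := ⟨_, h4'⟩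
  have hsz : Squarefree (D : ℤ) := Int.squarefree_natCast.mpr hs
  have h6 : (D : ℤ) ∣ w := (hsz.dvd_pow_iff_dvd two_ne_zero).mp h5
  obtain ⟨t, rfl⟩ := h6
  have hv : (t : ℚ) = v := by
    have h7 : (D : ℚ) * t = D * v := by
      rw [← hw]
      push_cast
      ring
    exact mul_left_cancel₀ hD0 h7
  have h8 : T ^ 2 + (D : ℤ) * t ^ 2 = 4 * N := by
    have h9 : (((T ^ 2 + (D : ℤ) * t ^ 2 : ℤ)) : ℚ) = ((4 * N : ℤ) : ℚ) := by
      push_cast
      rw [hv]
      linarith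
    exact_mod_cast h9
  have h10 : Even (T ^ 2 + (D : ℤ) * t ^ 2) := by
    rw [h8]
    exact ⟨2 * N, by ring⟩
  have hDo : ¬ Even (D : ℤ) := by
    rw [Int.even_iff]
    omega
  have h11 : Even T ↔ Even t := by
    rw [Int.even_add, Int.even_mul, Int.even_pow' two_ne_zero, Int.even_pow' two_ne_zero] at h10
    tauto
  have h12 : Even (T - t) := by
    rw [Int.even_sub]
    exact h11
  obtain ⟨s, hsT⟩ := h12
  refine ⟨s, t, ?_, hv⟩
  have h13 : (T : ℚ) - t = s + s := by exact_mod_cast hsT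
  linarith

private abbrev KK (e : ℤ) : Type := QuadraticAlgebra ℚ (-(e : ℚ)) 1

section

variable {e : ℤ} [Fact (∀ r : ℚ, r ^ 2 ≠ -(e : ℚ) + 1 * r)]

private lemma nf (e : ℤ) [Fact (∀ r : ℚ, r ^ 2 ≠ -(e : ℚ) + 1 * r)] : NumberField (KK e) where
  to_charZero := by infer_instance
  to_finiteDimensional := by
    have : Module.Finite ℚ (QuadraticAlgebra ℚ (-(e : ℚ)) 1) := inferInstance
    exact this

private lemma om_int (e : ℤ) [Fact (∀ r : ℚ, r ^ 2 ≠ -(e : ℚ) + 1 * r)] :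
    IsIntegral ℤ (QuadraticAlgebra.omega : KK e) := by
  refine ⟨Polynomial.X ^ 2 - Polynomial.X + Polynomial.C e, ?_, ?_⟩
  · monicity!
  · rw [Polynomial.eval₂_add, Polynomial.eval₂_sub, Polynomial.eval₂_pow, Polynomial.eval₂_X,
      Polynomial.eval₂_C, sq, QuadraticAlgebra.omega_mul_omega_eq_mk]
    ext
    · simp
    · simp

private lemma tn (z : KK e) (hz : IsIntegral ℤ z) : ∃ T N : ℤ, (T : ℚ) = 2 * z.re + z.im ∧
    (N : ℚ) = z.re * z.re + z.re * z.im + e * z.im * z.im := by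
  have hs : IsIntegral ℤ (star z) := map_isIntegral_int (starRingEnd (KK e)) hz
  have h1 : IsIntegral ℤ (z + star z) := hz.add hs
  have h2 : IsIntegral ℤ (z * star z) := hz.mul hs
  rw [← QuadraticAlgebra.algebraMap_trace_eq_add_star,
    isIntegral_algebraMap_iff (RingHom.injective _)] at h1
  rw [← QuadraticAlgebra.algebraMap_norm_eq_mul_star,
    isIntegral_algebraMap_iff (RingHom.injective _)] at h2
  obtain ⟨T, hT⟩ := int_of_integral _ h1
  obtain ⟨N, hN⟩ := int_of_integral _ h2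
  refine ⟨T, N, ?_, ?_⟩
  · rw [hT, QuadraticAlgebra.trace_def, one_mul]
  · rw [hN, QuadraticAlgebra.norm_def]
    ring

end

theorem hQFE : StQFE := by
  intro D hs h4
  obtain ⟨e, he⟩ : ∃ e : ℤ, 4 * e = (D : ℤ) + 1 := ⟨((D : ℤ) + 1) / 4, by omega⟩
  have heq : 4 * (e : ℚ) = (D : ℚ) + 1 := by exact_mod_cast he
  have hfact : Fact (∀ r : ℚ, r ^ 2 ≠ -(e : ℚ) + 1 * r) := by
    constructor
    intro r hr
    have h1 : (2 * r - 1) ^ 2 = -(D : ℚ) := by linear_combination 4 * hr - heq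
    have h2 : (0 : ℚ) ≤ (2 * r - 1) ^ 2 := sq_nonneg _
    have h3 : (0 : ℚ) < D := by
      have : 0 < D := by omega
      exact_mod_cast this
    linarith
  refine ⟨KK e, inferInstance, nf e, ?_⟩
  have := nf e
  set om : 𝓞 (KK e) := ⟨QuadraticAlgebra.omega, om_int e⟩ with hom
  have hcoe : (om : KK e) = QuadraticAlgebra.omega := rfl
  have hli : LinearIndependent ℤ ![(1 : 𝓞 (KK e)), om] := by
    rw [LinearIndependent.pair_iff]
    intro s t hst
    have h1 := congrArg (fun x : 𝓞 (KK e) => (x : KK e)) hst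
    simp only [zsmul_eq_mul, map_add, map_mul, map_intCast, mul_one, map_zero] at h1
    have h2 : ((s : KK e) + (t : KK e) * QuadraticAlgebra.omega) = 0 := h1
    have h3 := congrArg QuadraticAlgebra.re h2
    have h4 := congrArg QuadraticAlgebra.im h2
    simp at h3 h4
    exact ⟨h3, h4⟩
  have hsp : ⊤ ≤ Submodule.span ℤ (Set.range ![(1 : 𝓞 (KK e)), om]) := by
    intro x _
    obtain ⟨T, N, hT, hN⟩ := tn (x : KK e) (NumberField.RingOfIntegers.isIntegral_coe x)
    obtain ⟨s, t, hs1, ht1⟩ := arith D hs h4 e he _ _ T N hT hN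
    have hx : x = s • (1 : 𝓞 (KK e)) + t • om := by
      apply NumberField.RingOfIntegers.ext
      have h1 : ((s • (1 : 𝓞 (KK e)) + t • om : 𝓞 (KK e)) : KK e) =
          (s : KK e) + (t : KK e) * QuadraticAlgebra.omega := by
        simp only [zsmul_eq_mul, map_add, map_mul, map_intCast, mul_one]
        rfl
      rw [h1]
      ext
      · simp [hs1]
      · simp [ht1]
    rw [hx]
    apply Submodule.add_mem
    · exact Submodule.smul_mem _ _ (Submodule.subset_span ⟨0, rfl⟩)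
    · exact Submodule.smul_mem _ _ (Submodule.subset_span ⟨1, rfl⟩)
  refine ⟨{ e := e, he := he, b := Module.Basis.mk hli hsp, hb0 := ?_, hb1 := ?_ }⟩
  · rw [Module.Basis.mk_apply]
    rfl
  · rw [Module.Basis.mk_apply]
    show om * om = om - (e : 𝓞 (KK e))
    apply NumberField.RingOfIntegers.ext
    have h1 : ((om * om : 𝓞 (KK e)) : KK e) = QuadraticAlgebra.omega * QuadraticAlgebra.omega := rfl
    have h2 : ((om - (e : 𝓞 (KK e)) : 𝓞 (KK e)) : KK e) =
        QuadraticAlgebra.omega - (e : KK e) := by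
      simp only [map_sub, map_intCast]
      rfl
    rw [h1, h2, QuadraticAlgebra.omega_mul_omega_eq_mk]
    ext
    · simp
    · simp

end Pool.Agent.Helper47.T3
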